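import Pool.Agent.Run7.h917.HG.Hyp
import Pool.Agent.Run7.h917.LW.Final

/-!
# Hyperbolic groups: sets of elements with quotients of finite order are bounded
-/

set_option autoImplicit false

open scoped Pointwise

universe u v

namespace Pool.Agent.Run7.h917.HG

/-- The graph on `G` with edges from `a` to `a s`, `s` in `S`. -/
def wordGraph {G : Type u} [Group G] (S : Finset G) : SimpleGraph G :=
  SimpleGraph.fromRel fun a b : G => a⁻¹ * b ∈ S

/-- `G` is generated by `S` and its Cayley graph satisfies the four point condition. -/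
def IsHyperbolic {G : Type u} [Group G] (δ : ℕ) (S : Finset G) : Prop :=
  Subgroup.closure (S : Set G) = ⊤ ∧ ∀ x y z w : G,
    (wordGraph S).dist x y + (wordGraph S).dist z w ≤
      max ((wordGraph S).dist x z + (wordGraph S).dist y w)
        ((wordGraph S).dist x w + (wordGraph S).dist y z) + 2 * δ

variable {G : Type u} [Group G] {S : Finset G} {δ : ℕ}

theorem reach (g : G) (hg : g ∈ Subgroup.closure (S : Set G)) :
    ∀ x : G, (wordGraph S).Reachable x (x * g) := by
  induction hg using Subgroup.closure_induction with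
  | mem s hs =>
    intro x
    by_cases hxs : x = x * s
    · rw [← hxs]
    · refine SimpleGraph.Adj.reachable ?_
      refine (SimpleGraph.fromRel_adj _ _ _).2 ⟨hxs, Or.inl ?_⟩
      rw [inv_mul_cancel_left]
      exact hs
  | one => intro x; rw [mul_one]
  | mul a b ha hb iha ihb =>
    intro x
    rw [← mul_assoc]
    exact (iha x).trans (ihb (x * a))
  | inv a ha iha =>
    intro x
    have h := iha (x * a⁻¹)
    rw [inv_mul_cancel_right] at h
    exact h.symm

theorem conn (hS : Subgroup.closure (S : Set G) = ⊤) : (wordGraph S).Connected := by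
  refine ⟨fun x y => ?_⟩
  have h := reach (S := S) (x⁻¹ * y) (by rw [hS]; exact Subgroup.mem_top _) x
  rw [mul_inv_cancel_left] at h
  exact h

theorem dist_mul_le (hS : Subgroup.closure (S : Set G) = ⊤) (g x y : G) :
    (wordGraph S).dist (g * x) (g * y) ≤ (wordGraph S).dist x y := by
  obtain ⟨p, hp⟩ := (conn hS).exists_walk_length_eq_dist x y
  let f : wordGraph S →g wordGraph S := ⟨fun x => g * x, by
    intro a b hab
    have h1 := (SimpleGraph.fromRel_adj _ _ _).1 hab
    refine (SimpleGraph.fromRel_adj _ _ _).2 ⟨fun h => h1.1 (mul_left_cancel h), ?_⟩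
    have e1 : (g * a)⁻¹ * (g * b) = a⁻¹ * b := by group
    have e2 : (g * b)⁻¹ * (g * a) = b⁻¹ * a := by group
    rw [e1, e2]
    exact h1.2⟩
  have h2 := SimpleGraph.dist_le (p.map f)
  rw [SimpleGraph.Walk.length_map, hp] at h2
  exact h2

theorem hypMetric (h : IsHyperbolic δ S) : HypMetric (wordGraph S).dist δ := by
  have hS := h.1
  have hc := conn hS
  refine ⟨fun x => SimpleGraph.dist_self, fun x y => SimpleGraph.dist_comm,
    fun x y z => hc.dist_triangle, fun g x y => ?_, fun x y t ht => ?_, fun x y z w => ?_⟩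
  · refine le_antisymm (dist_mul_le hS g x y) ?_
    have h1 := dist_mul_le hS g⁻¹ (g * x) (g * y)
    rw [inv_mul_cancel_left, inv_mul_cancel_left] at h1
    exact h1
  · obtain ⟨p, hp⟩ := hc.exists_walk_length_eq_dist x y
    refine ⟨p.getVert t, ?_⟩
    have h1 := SimpleGraph.dist_le (p.take t)
    have h2 := SimpleGraph.dist_le (p.drop t)
    rw [SimpleGraph.Walk.take_length] at h1
    rw [SimpleGraph.Walk.drop_length] at h2
    have h3 := hc.dist_triangle (u := x) (v := p.getVert t) (w := y)
    have h4 : t ⊓ p.length = t := by rw [hp]; exact min_eq_left ht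
    rw [h4] at h1
    rw [hp] at h2
    omega
  · have h1 := h.2 x y z w
    rcases le_total ((wordGraph S).dist x z + (wordGraph S).dist y w)
      ((wordGraph S).dist x w + (wordGraph S).dist y z) with h2 | h2
    · rw [max_eq_right h2] at h1
      exact Or.inr h1
    · rw [max_eq_left h2] at h1
      exact Or.inl h1

open Classical in
/-- the letters -/
noncomputable def letters (S : Finset G) : Finset G := insert 1 (S ∪ S⁻¹)

open Classical in
theorem card_letters (S : Finset G) : (letters S).card ≤ 2 * S.card + 1 := by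
  unfold letters
  refine (Finset.card_insert_le _ _).trans ?_
  have h1 := Finset.card_union_le S S⁻¹
  rw [Finset.card_inv] at h1
  omega

open Classical in
theorem mem_pow_of_dist (h : IsHyperbolic δ S) (r : ℕ) :
    ∀ g : G, (wordGraph S).dist 1 g ≤ r → g ∈ letters S ^ r := by
  have hm := hypMetric h
  have h1 : (1 : G) ∈ letters S := Finset.mem_insert_self _ _
  induction r with
  | zero =>
    intro g hg
    have h2 : (wordGraph S).dist 1 g = 0 := Nat.le_zero.1 hg
    have h3 : 1 = g := (conn h.1).dist_eq_zero_iff.1 h2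
    rw [pow_zero, ← h3]
    exact Finset.one_mem_one
  | succ r ih =>
    intro g hg
    rw [pow_succ]
    by_cases hr : (wordGraph S).dist 1 g ≤ r
    · have h2 := Finset.mul_mem_mul (ih g hr) h1
      rw [mul_one] at h2
      exact h2
    · obtain ⟨z, hz1, hz2⟩ := hm.geo 1 g r (by omega)
      have hz3 : (wordGraph S).dist z g = 1 := by omega
      have hadj := SimpleGraph.dist_eq_one_iff_adj.1 hz3
      have h2 := ((SimpleGraph.fromRel_adj _ _ _).1 hadj).2
      have h3 : z⁻¹ * g ∈ letters S := by
        refine Finset.mem_insert_of_mem (Finset.mem_union.2 ?_)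
        rcases h2 with h2 | h2
        · exact Or.inl h2
        · refine Or.inr (Finset.mem_inv'.2 ?_)
          have e : (z⁻¹ * g)⁻¹ = g⁻¹ * z := by group
          rw [e]
          exact h2
      have h4 := Finset.mul_mem_mul (ih z hz1.le) h3
      rw [mul_inv_cancel_left] at h4
      exact h4

open Classical in
theorem few_of_hyperbolic {s : ℕ} (h : IsHyperbolic δ S) (hs : S.card ≤ s) :
    Run7.h917.LW.Few ((2 * s + 1) ^ (40 * δ + 8)) G := by
  intro X hX
  by_contra hcon
  push Not at hcon
  have hm := hypMetric h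
  have hne : X.Nonempty := Finset.card_pos.1 (by omega)
  obtain ⟨p, hp⟩ := centre hm X hne hcon
  obtain ⟨x0, hx0⟩ := hne
  have h1 : X.card ≤ (letters S ^ (40 * δ + 8)).card := by
    refine Finset.card_le_card_of_injOn (fun x => (x0 * p)⁻¹ * (x * p)) ?_ ?_
    · intro x hx
      refine mem_pow_of_dist h _ _ ?_
      have h2 := hp x0 hx0 x hx
      have h3 := hm.inv (x0 * p) 1 ((x0 * p)⁻¹ * (x * p))
      rw [mul_one, mul_inv_cancel_left] at h3
      show (wordGraph S).dist 1 ((x0 * p)⁻¹ * (x * p)) ≤ 40 * δ + 8
      omega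
    · intro x hx y hy hxy
      exact mul_right_cancel (mul_left_cancel hxy)
  have h2 : (letters S ^ (40 * δ + 8)).card ≤ (2 * s + 1) ^ (40 * δ + 8) := by
    refine Finset.card_pow_le.trans (Nat.pow_le_pow_left ?_ _)
    have := card_letters S
    omega
  omega

theorem few_of_hom {G : Type u} [Group G] {H : Type v} [Group H] {B : ℕ} (f : G →* H)
    (hker : ∀ g, f g = 1 → IsOfFinOrder g → g = 1) (hH : Run7.h917.LW.Few B H) : Run7.h917.LW.Few B G := by
  classical
  intro X hX
  by_cases hinj : Set.InjOn f (X : Set G)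
  · have hc : B < (X.image f).card := by
      rw [Finset.card_image_of_injOn hinj]
      exact hX
    obtain ⟨a', ha', b', hb', hab⟩ := hH _ hc
    obtain ⟨a, ha, rfl⟩ := Finset.mem_image.1 ha'
    obtain ⟨b, hb, rfl⟩ := Finset.mem_image.1 hb'
    refine ⟨a, ha, b, hb, fun h => hab ?_⟩
    have h2 := MonoidHom.isOfFinOrder f h
    rw [map_mul, map_inv] at h2
    exact h2
  · unfold Set.InjOn at hinj
    push Not at hinj
    obtain ⟨a, ha, b, hb, hab, hne⟩ := hinj
    refine ⟨a, ha, b, hb, fun h => hne ?_⟩
    have h1 : f (a⁻¹ * b) = 1 := by rw [map_mul, map_inv, hab, inv_mul_cancel]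
    exact (inv_mul_eq_one.1 (hker _ h1 h))

end Pool.Agent.Run7.h917.HG
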