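import Pool.Agent.Run7.h917.HG.Tree

/-!
# Groups acting on trees, version with graphs
-/

set_option autoImplicit false

universe u v

namespace Pool.Agent.Run7.h917.HG

theorem dist_smul_le {G : Type u} [Group G] {V : Type v} [MulAction G V] {T : SimpleGraph V}
    (hT : T.Connected) (hact : ∀ (g : G) x y, T.Adj x y → T.Adj (g • x) (g • y)) (g : G) (x y : V) :
    T.dist (g • x) (g • y) ≤ T.dist x y := by
  obtain ⟨p, hp⟩ := hT.exists_walk_length_eq_dist x y
  let f : T →g T := ⟨fun x => g • x, fun {a b} hab => hact g a b hab⟩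
  have h2 := SimpleGraph.dist_le (p.map f)
  rw [SimpleGraph.Walk.length_map, hp] at h2
  exact h2

theorem treeMetric {G : Type u} [Group G] {V : Type v} [MulAction G V] {T : SimpleGraph V}
    (hc : T.Connected) (hact : ∀ (g : G) x y, T.Adj x y → T.Adj (g • x) (g • y))
    (hfour : ∀ x y z w, T.dist x y + T.dist z w ≤
      max (T.dist x z + T.dist y w) (T.dist x w + T.dist y z))
    (heven : ∀ (g : G) x, Even (T.dist x (g • x))) : TreeMetric G T.dist := by
  refine ⟨fun x y hxy => hc.dist_eq_zero_iff.1 hxy, fun x => SimpleGraph.dist_self,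
    fun x y => SimpleGraph.dist_comm, fun x y z => hc.dist_triangle, fun g x y => ?_,
    fun x y t ht => ?_, fun x y z w => ?_, fun g x => Nat.even_iff.1 (heven g x)⟩
  · refine le_antisymm (dist_smul_le hc hact g x y) ?_
    have h1 := dist_smul_le hc hact g⁻¹ (g • x) (g • y)
    rw [inv_smul_smul, inv_smul_smul] at h1
    exact h1
  · obtain ⟨p, hp⟩ := hc.exists_walk_length_eq_dist x y
    refine ⟨p.getVert t, ?_⟩
    have h1 := SimpleGraph.dist_le (p.take t)
    have h2 := SimpleGraph.dist_le (p.drop t)
    rw [SimpleGraph.Walk.take_length] at h1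
    rw [SimpleGraph.Walk.drop_length] at h2
    have h3 := hc.dist_triangle (u := x) (v := p.getVert t) (w := y)
    have h4 : t ⊓ p.length = t := by rw [hp]; exact min_eq_left ht
    rw [h4] at h1
    rw [hp] at h2
    omega
  · have h1 := hfour x y z w
    rcases le_total (T.dist x z + T.dist y w) (T.dist x w + T.dist y z) with h2 | h2
    · rw [max_eq_right h2] at h1
      exact Or.inr h1
    · rw [max_eq_left h2] at h1
      exact Or.inl h1

end Pool.Agent.Run7.h917.HG
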