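import Pool.Agent.Run7.h917.HG.Few

/-!
# Extensions
-/

set_option autoImplicit false

universe u v

namespace Pool.Agent.Run7.h917.HG

theorem few_ext {G : Type u} [Group G] {H : Type v} [Group H] {A B : ℕ} (f : G →* H)
    (hker : Run7.h917.LW.Few A f.ker) (hH : Run7.h917.LW.Few B H) :
    Run7.h917.LW.Few (A * B) G := by
  classical
  intro X hX
  by_contra hcon
  push Not at hcon
  have himg : (X.image f).card ≤ B := by
    by_contra hc
    push Not at hc
    obtain ⟨a', ha', b', hb', hab⟩ := hH _ hc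
    obtain ⟨a, ha, rfl⟩ := Finset.mem_image.1 ha'
    obtain ⟨b, hb, rfl⟩ := Finset.mem_image.1 hb'
    have h2 := MonoidHom.isOfFinOrder f (hcon a ha b hb)
    rw [map_mul, map_inv] at h2
    exact hab h2
  have hlt : (X.image f).card * A < X.card := by
    refine lt_of_le_of_lt ?_ hX
    rw [mul_comm A B]
    exact Nat.mul_le_mul_right A himg
  obtain ⟨y, -, hy⟩ := Finset.exists_lt_card_fiber_of_mul_lt_card_of_maps_to
    (fun x hx => Finset.mem_image_of_mem f hx) hlt
  set F := X.filter fun x => f x = y with hF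
  have hFne : F.Nonempty := Finset.card_pos.1 (by omega)
  obtain ⟨x0, hx0⟩ := hFne
  have hx0' := Finset.mem_filter.1 hx0
  have hmem : ∀ x ∈ F, x0⁻¹ * x ∈ f.ker := by
    intro x hx
    rw [MonoidHom.mem_ker, map_mul, map_inv, hx0'.2, (Finset.mem_filter.1 hx).2, inv_mul_cancel]
  let Y : Finset f.ker := F.attach.image fun x => ⟨x0⁻¹ * x.1, hmem x.1 x.2⟩
  have hY : A < Y.card := by
    have h1 : Y.card = F.attach.card := by
      refine Finset.card_image_of_injective _ ?_
      intro x y hxy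
      have h2 := congrArg Subtype.val hxy
      exact Subtype.ext (mul_left_cancel h2)
    rw [h1, Finset.card_attach]
    exact hy
  obtain ⟨a', ha', b', hb', hab⟩ := hker Y hY
  obtain ⟨a, -, rfl⟩ := Finset.mem_image.1 ha'
  obtain ⟨b, -, rfl⟩ := Finset.mem_image.1 hb'
  refine hab ?_
  refine (Function.Injective.isOfFinOrder_iff (f := f.ker.subtype)
    f.ker.subtype_injective).1 ?_
  rw [Subgroup.coe_subtype]
  have e : (((⟨x0⁻¹ * a.1, hmem a.1 a.2⟩ : f.ker)⁻¹ * ⟨x0⁻¹ * b.1, hmem b.1 b.2⟩ : f.ker) : G)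
      = a.1⁻¹ * b.1 := by
    simp only [Subgroup.coe_mul, Subgroup.coe_inv]
    group
  rw [e]
  exact hcon a.1 (Finset.mem_filter.1 a.2).1 b.1 (Finset.mem_filter.1 b.2).1

end Pool.Agent.Run7.h917.HG
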