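import Mathlib

/-!
# Sets with torsion quotients in hyperbolic groups

A finite set `X` of isometries of a hyperbolic space, all of whose quotients are of finite order, moves
some point by a bounded amount.
-/

set_option autoImplicit false

universe u

namespace Pool.Agent.Run7.h917.HG

/-- A left-invariant integer valued geodesic metric with the four point condition. -/
structure HypMetric {G : Type u} [Group G] (d : G → G → ℕ) (δ : ℕ) : Prop where
  self : ∀ x, d x x = 0
  comm : ∀ x y, d x y = d y x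
  tri : ∀ x y z, d x z ≤ d x y + d y z
  inv : ∀ g x y, d (g * x) (g * y) = d x y
  geo : ∀ x y (t : ℕ), t ≤ d x y → ∃ z, d x z = t ∧ d z y = d x y - t
  four : ∀ x y z w, d x y + d z w ≤ d x z + d y w + 2 * δ ∨
    d x y + d z w ≤ d x w + d y z + 2 * δ

variable {G : Type u} [Group G] {d : G → G → ℕ} {δ : ℕ}

theorem grow (h : HypMetric d δ) {g : G} (p : G) (hg : IsOfFinOrder g) :
    d p (g * (g * p)) ≤ d p (g * p) + 2 * δ := by
  by_contra hcon
  push Not at hcon
  have h3 : d (g * p) (g * (g * p)) = d p (g * p) := h.inv g p (g * p)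
  have key : ∀ n : ℕ, d p (g ^ n * p) < d p (g ^ (n + 1) * p) := by
    intro n
    induction n with
    | zero =>
      have h2 : d p (g * (g * p)) ≤ d p (g * p) + d (g * p) (g * (g * p)) := h.tri _ _ _
      have h4 : d p p = 0 := h.self p
      simp only [pow_zero, one_mul, zero_add, pow_one]
      omega
    | succ n ih =>
      have h4 := h.four p (g * (g * p)) (g * p) (g ^ (n + 2) * p)
      have e1 : d (g * p) (g ^ (n + 2) * p) = d p (g ^ (n + 1) * p) := by
        have : g ^ (n + 2) * p = g * (g ^ (n + 1) * p) := by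
          rw [pow_succ' g (n + 1), mul_assoc]
        rw [this, h.inv]
      have e2 : d (g * (g * p)) (g ^ (n + 2) * p) = d p (g ^ n * p) := by
        have : g ^ (n + 2) * p = g * (g * (g ^ n * p)) := by
          rw [pow_succ' g (n + 1), pow_succ' g n, mul_assoc, mul_assoc]
        rw [this, h.inv, h.inv]
      have e3 : d (g * (g * p)) (g * p) = d p (g * p) := by
        rw [h.comm, h3]
      have e4 : n + 1 + 1 = n + 2 := rfl
      rw [e4]
      omega
  have hge : ∀ m : ℕ, m ≤ d p (g ^ m * p) := by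
    intro m
    induction m with
    | zero => exact Nat.zero_le _
    | succ m ih => exact Nat.succ_le_of_lt (lt_of_le_of_lt ih (key m))
  obtain ⟨n, hn, hgn⟩ := isOfFinOrder_iff_pow_eq_one.1 hg
  have h5 := hge n
  rw [hgn, one_mul, h.self] at h5
  omega

/-- the four point condition seen from `p` -/
theorem tr (h : HypMetric d δ) (p u v w : G) :
    d p v + d u w ≤ d p u + d v w + 2 * δ ∨ d p v + d u w ≤ d p w + d u v + 2 * δ := by
  rcases h.four p v u w with h1 | h1
  · exact Or.inl h1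
  · right
    rw [h.comm u v]
    exact h1

theorem move (h : HypMetric d δ) (x y p : G) : d p (x⁻¹ * y * p) = d (x * p) (y * p) := by
  rw [← h.inv x p (x⁻¹ * y * p)]
  congr 1
  group

theorem move2 (h : HypMetric d δ) (x y z p : G) :
    d (x⁻¹ * y * p) (x⁻¹ * z * p) = d (y * p) (z * p) := by
  rw [mul_assoc, mul_assoc, h.inv]

theorem back (h : HypMetric d δ) (x y p : G) (hxy : IsOfFinOrder (x⁻¹ * y)) :
    d (x⁻¹ * y * p) (y⁻¹ * x * p) ≤ d (x * p) (y * p) + 2 * δ := by
  have h1 := grow h p hxy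
  rw [move h] at h1
  refine le_trans (le_of_eq ?_) h1
  rw [h.comm, ← h.inv (x⁻¹ * y) (y⁻¹ * x * p) (x⁻¹ * y * p)]
  congr 1
  group

theorem dirA (h : HypMetric d δ) (p : G) {M : ℕ} {x y a b : G}
    (hxy : d (x * p) (y * p) = M) (hya : d (y * p) (a * p) ≤ M) (hxb : d (x * p) (b * p) ≤ M)
    (hxa : IsOfFinOrder (x⁻¹ * a)) :
    d (x⁻¹ * y * p) (a⁻¹ * b * p) + d (x * p) (a * p) ≤ 2 * M + 2 * δ ∨
    d (x⁻¹ * y * p) (a⁻¹ * b * p) + d (x * p) (a * p) ≤ M + d (a * p) (b * p) + 6 * δ := by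
  have n0 : d p (x⁻¹ * y * p) = M := by rw [move h, hxy]
  have n1 : d p (x⁻¹ * a * p) = d (x * p) (a * p) := move h x a p
  have n2 : d p (a⁻¹ * x * p) = d (x * p) (a * p) := by rw [move h, h.comm]
  have n3 : d p (a⁻¹ * b * p) = d (a * p) (b * p) := move h a b p
  have e01 : d (x⁻¹ * y * p) (x⁻¹ * a * p) = d (y * p) (a * p) := move2 h x y a p
  have e12 : d (x⁻¹ * a * p) (a⁻¹ * x * p) ≤ d (x * p) (a * p) + 2 * δ := back h x a p hxa
  have e23 : d (a⁻¹ * x * p) (a⁻¹ * b * p) = d (x * p) (b * p) := move2 h a x b p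
  have t1 := tr h p (x⁻¹ * y * p) (x⁻¹ * a * p) (a⁻¹ * x * p)
  have t2 := tr h p (x⁻¹ * y * p) (a⁻¹ * x * p) (a⁻¹ * b * p)
  omega

theorem centre (h : HypMetric d δ) (X : Finset G) (hX : X.Nonempty)
    (hfin : ∀ a ∈ X, ∀ b ∈ X, IsOfFinOrder (a⁻¹ * b)) :
    ∃ p : G, ∀ a ∈ X, ∀ b ∈ X, d (a * p) (b * p) < 40 * δ + 8 := by
  classical
  let Mx : G → ℕ := fun p => (X ×ˢ X).sup fun e => d (e.1 * p) (e.2 * p)
  obtain ⟨p, hp⟩ : ∃ p, ∀ q, Mx p ≤ Mx q := by
    have hne : ∃ n, ∃ p, Mx p = n := ⟨_, 1, rfl⟩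
    obtain ⟨p, hp⟩ := Nat.find_spec hne
    exact ⟨p, fun q => by rw [hp]; exact Nat.find_min' hne ⟨q, rfl⟩⟩
  refine ⟨p, ?_⟩
  by_contra hcon
  push Not at hcon
  obtain ⟨a0, ha0, b0, hb0, hab0⟩ := hcon
  have hle : ∀ a ∈ X, ∀ b ∈ X, d (a * p) (b * p) ≤ Mx p := fun a ha b hb =>
    Finset.le_sup (f := fun e : G × G => d (e.1 * p) (e.2 * p)) (Finset.mk_mem_product ha hb)
  obtain ⟨⟨x, y⟩, hxyX, hxy⟩ := Finset.exists_mem_eq_sup (X ×ˢ X) (hX.product hX)
    (fun e : G × G => d (e.1 * p) (e.2 * p))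
  obtain ⟨hx, hy⟩ := Finset.mem_product.1 hxyX
  simp only at hx hy hxy
  set M := Mx p with hM
  have hM1 : d (x * p) (y * p) = M := hxy.symm
  have hMbig : 40 * δ + 8 ≤ M := hab0.trans (hle a0 ha0 b0 hb0)
  have hgp : d p (x⁻¹ * y * p) = M := by rw [move h, hM1]
  obtain ⟨q, hq1, hq2⟩ := h.geo p (x⁻¹ * y * p) (3 * δ + 1) (by omega)
  rw [hgp] at hq2
  -- directions
  have hdir : ∀ a ∈ X, ∀ b ∈ X, M ≤ d (a * p) (b * p) + (6 * δ + 2) →
      d (x⁻¹ * y * p) (a⁻¹ * b * p) + (6 * δ + 2) ≤ M + d (a * p) (b * p) := by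
    intro a ha b hb hab
    have hU := hle a ha b hb
    have htri : M ≤ d (x * p) (a * p) + d (y * p) (a * p) := by
      have := h.tri (x * p) (a * p) (y * p)
      rw [hM1, h.comm (a * p) (y * p)] at this
      exact this
    by_cases hA : M ≤ 2 * d (x * p) (a * p)
    · have h1 := dirA h p (a := a) (b := b) hM1 (hle y hy a ha) (hle x hx b hb) (hfin x hx a ha)
      omega
    · have hB : M ≤ 2 * d (y * p) (a * p) := by omega
      have hM2 : d (y * p) (x * p) = M := by rw [h.comm, hM1]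
      have h1 := dirA h p (a := a) (b := b) hM2 (hle x hx a ha) (hle y hy b hb) (hfin y hy a ha)
      have h2 := back h x y p (hfin x hx y hy)
      have n0 : d p (y⁻¹ * x * p) = M := by rw [move h, hM2]
      have n3 : d p (a⁻¹ * b * p) = d (a * p) (b * p) := move h a b p
      have t1 := tr h p (x⁻¹ * y * p) (y⁻¹ * x * p) (a⁻¹ * b * p)
      rw [hM1] at h2
      omega
  have hlt : Mx q < M := by
    refine (Finset.sup_lt_iff (by show (0 : ℕ) < M; omega)).2 ?_
    rintro ⟨a, b⟩ hab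
    obtain ⟨ha, hb⟩ := Finset.mem_product.1 hab
    simp only at ha hb ⊢
    have hU := hle a ha b hb
    have e1 : d (a * q) (b * q) = d q (a⁻¹ * b * q) := (move h a b q).symm
    have n3 : d p (a⁻¹ * b * p) = d (a * p) (b * p) := move h a b p
    have e2 : d (a⁻¹ * b * p) (a⁻¹ * b * q) = d p q := h.inv _ _ _
    by_cases hbig : M ≤ d (a * p) (b * p) + (6 * δ + 2)
    · have h1 := hdir a ha b hb hbig
      have h2 := hdir b hb a ha (by rw [h.comm]; exact hbig)
      rw [h.comm (b * p) (a * p)] at h2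
      have n4 : d p (b⁻¹ * a * p) = d (a * p) (b * p) := by rw [move h, h.comm]
      have f1 := h.four p (x⁻¹ * y * p) q (a⁻¹ * b * p)
      have f2 := h.four p (x⁻¹ * y * p) q (b⁻¹ * a * p)
      have c1 : d (x⁻¹ * y * p) q = d q (x⁻¹ * y * p) := h.comm _ _
      have e3 : d p (a⁻¹ * b * q) = d q (b⁻¹ * a * p) := by
        rw [h.comm q, ← h.inv (a⁻¹ * b) (b⁻¹ * a * p) q]
        congr 1
        group
      have f3 := h.four p (a⁻¹ * b * p) q (a⁻¹ * b * q)
      have c2 : d (a⁻¹ * b * p) q = d q (a⁻¹ * b * p) := h.comm _ _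
      rw [e1]
      omega
    · have h1 := h.tri q p (a⁻¹ * b * q)
      have h2 := h.tri p (a⁻¹ * b * p) (a⁻¹ * b * q)
      have c1 : d q p = d p q := h.comm _ _
      rw [e1]
      omega
  exact absurd (hp q) (not_le.2 hlt)

end Pool.Agent.Run7.h917.HG
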