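import Pool.Agent.Run7.h917.HG.Ext

/-!
# Groups acting on trees
-/

set_option autoImplicit false

universe u v

namespace Pool.Agent.Run7.h917.HG

/-- The path metric of a tree (0-hyperbolic graph) with an action. -/
structure TreeMetric (G : Type u) [Group G] {V : Type v} [MulAction G V] (d : V → V → ℕ) : Prop where
  zero : ∀ x y, d x y = 0 → x = y
  self : ∀ x, d x x = 0
  comm : ∀ x y, d x y = d y x
  tri : ∀ x y z, d x z ≤ d x y + d y z
  inv : ∀ (g : G) x y, d (g • x) (g • y) = d x y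
  geo : ∀ x y (t : ℕ), t ≤ d x y → ∃ z, d x z = t ∧ d z y = d x y - t
  four : ∀ x y z w, d x y + d z w ≤ d x z + d y w ∨ d x y + d z w ≤ d x w + d y z
  even : ∀ (g : G) x, d x (g • x) % 2 = 0

variable {G : Type u} [Group G] {V : Type v} [MulAction G V] {d : V → V → ℕ}

theorem growT (h : TreeMetric G d) {g : G} (p : V) (hg : IsOfFinOrder g) :
    d p (g • (g • p)) ≤ d p (g • p) := by
  by_contra hcon
  push Not at hcon
  have h3 : d (g • p) (g • (g • p)) = d p (g • p) := h.inv g p (g • p)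
  have key : ∀ n : ℕ, d p (g ^ n • p) < d p (g ^ (n + 1) • p) := by
    intro n
    induction n with
    | zero =>
      have h2 : d p (g • (g • p)) ≤ d p (g • p) + d (g • p) (g • (g • p)) := h.tri _ _ _
      have h4 : d p p = 0 := h.self p
      simp only [pow_zero, one_smul, zero_add, pow_one]
      omega
    | succ n ih =>
      have h4 := h.four p (g • (g • p)) (g • p) (g ^ (n + 2) • p)
      have e1 : d (g • p) (g ^ (n + 2) • p) = d p (g ^ (n + 1) • p) := by
        have : g ^ (n + 2) • p = g • (g ^ (n + 1) • p) := by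
          rw [pow_succ' g (n + 1), mul_smul]
        rw [this, h.inv]
      have e2 : d (g • (g • p)) (g ^ (n + 2) • p) = d p (g ^ n • p) := by
        have : g ^ (n + 2) • p = g • (g • (g ^ n • p)) := by
          rw [pow_succ' g (n + 1), pow_succ' g n, mul_smul, mul_smul]
        rw [this, h.inv, h.inv]
      have e3 : d (g • (g • p)) (g • p) = d p (g • p) := by
        rw [h.comm, h3]
      have e4 : n + 1 + 1 = n + 2 := rfl
      rw [e4]
      omega
  have hge : ∀ m : ℕ, m ≤ d p (g ^ m • p) := by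
    intro m
    induction m with
    | zero => exact Nat.zero_le _
    | succ m ih => exact Nat.succ_le_of_lt (lt_of_le_of_lt ih (key m))
  obtain ⟨n, hn, hgn⟩ := isOfFinOrder_iff_pow_eq_one.1 hg
  have h5 := hge n
  rw [hgn, one_smul, h.self] at h5
  omega

theorem moveT (h : TreeMetric G d) (x y : G) (p : V) :
    d p ((x⁻¹ * y) • p) = d (x • p) (y • p) := by
  rw [← h.inv x p ((x⁻¹ * y) • p), mul_smul, smul_inv_smul]

theorem moveT2 (h : TreeMetric G d) (x y z : G) (p : V) :
    d ((x⁻¹ * y) • p) ((x⁻¹ * z) • p) = d (y • p) (z • p) := by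
  rw [mul_smul, mul_smul, h.inv]

theorem moveT3 (h : TreeMetric G d) (x y : G) (q p : V) :
    d q ((x⁻¹ * y) • p) = d (x • q) (y • p) := by
  rw [← h.inv x q ((x⁻¹ * y) • p), mul_smul, smul_inv_smul]

theorem backT (h : TreeMetric G d) (x y : G) (p : V) (hxy : IsOfFinOrder (x⁻¹ * y)) :
    d ((x⁻¹ * y) • p) ((y⁻¹ * x) • p) ≤ d (x • p) (y • p) := by
  have h1 := growT h p hxy
  rw [moveT h] at h1
  refine le_trans (le_of_eq ?_) h1
  rw [h.comm, ← h.inv (x⁻¹ * y) ((y⁻¹ * x) • p) ((x⁻¹ * y) • p), smul_smul]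
  congr 1
  have : x⁻¹ * y * (y⁻¹ * x) = 1 := by group
  rw [this, one_smul]

/-- the first step `q` from `p` is in the direction of `v` -/
def Dr (d : V → V → ℕ) (p q v : V) : Prop := d q v + 1 ≤ d p v

theorem Dr.next (h : TreeMetric G d) {p q v w : V} (hq : d p q = 1) (hv : Dr d p q v)
    (hvw : d v w + 2 ≤ d p v + d p w) : Dr d p q w := by
  unfold Dr at hv ⊢
  have h1 := h.four p v q w
  have h2 : d v q = d q v := h.comm _ _
  omega

theorem fix (h : TreeMetric G d) [Nonempty V] (X : Finset G) (hX : X.Nonempty)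
    (hfin : ∀ a ∈ X, ∀ b ∈ X, IsOfFinOrder (a⁻¹ * b)) :
    ∃ p : V, ∀ a ∈ X, ∀ b ∈ X, a • p = b • p := by
  classical
  let Mx : V → ℕ := fun p => (X ×ˢ X).sup fun e => d (e.1 • p) (e.2 • p)
  obtain ⟨p, hp⟩ : ∃ p, ∀ q, Mx p ≤ Mx q := by
    obtain ⟨v0⟩ := ‹Nonempty V›
    have hne : ∃ n, ∃ p, Mx p = n := ⟨_, v0, rfl⟩
    obtain ⟨p, hp⟩ := Nat.find_spec hne
    exact ⟨p, fun q => by rw [hp]; exact Nat.find_min' hne ⟨q, rfl⟩⟩
  have hle : ∀ a ∈ X, ∀ b ∈ X, d (a • p) (b • p) ≤ Mx p := fun a ha b hb =>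
    Finset.le_sup (f := fun e : G × G => d (e.1 • p) (e.2 • p)) (Finset.mk_mem_product ha hb)
  obtain ⟨⟨x, y⟩, hxyX, hxy⟩ := Finset.exists_mem_eq_sup (X ×ˢ X) (hX.product hX)
    (fun e : G × G => d (e.1 • p) (e.2 • p))
  obtain ⟨hx, hy⟩ := Finset.mem_product.1 hxyX
  simp only at hx hy hxy
  set M := Mx p with hM
  have hM1 : d (x • p) (y • p) = M := hxy.symm
  by_cases hM0 : M = 0
  · refine ⟨p, fun a ha b hb => h.zero _ _ ?_⟩
    have := hle a ha b hb
    omega
  exfalso
  have hev : ∀ a b : G, d (a • p) (b • p) % 2 = 0 := fun a b => by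
    rw [← moveT h]
    exact h.even _ _
  have hM2 : M % 2 = 0 := hM1 ▸ hev x y
  obtain ⟨q, hq1, hq2⟩ := h.geo p ((x⁻¹ * y) • p) 1 (by rw [moveT h, hM1]; omega)
  rw [moveT h, hM1] at hq2
  -- opposite directions agree
  have hopp : ∀ a ∈ X, ∀ b ∈ X, Dr d p q ((a⁻¹ * b) • p) → Dr d p q ((b⁻¹ * a) • p) := by
    intro a ha b hb hab
    have h1 := backT h a b p (hfin a ha b hb)
    have h2 : 1 ≤ d (a • p) (b • p) := by
      unfold Dr at hab
      rw [moveT h] at hab
      omega
    have h3 := hev a b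
    refine Dr.next h hq1 hab ?_
    rw [moveT h a b p, moveT h b a p, h.comm (b • p) (a • p)]
    omega
  have hside : ∀ a ∈ X, ∀ b ∈ X, ∀ c ∈ X, Dr d p q ((a⁻¹ * b) • p) →
      d (b • p) (c • p) + 1 ≤ d (a • p) (b • p) + d (a • p) (c • p) →
      Dr d p q ((a⁻¹ * c) • p) := by
    intro a ha b hb c hc hab h1
    refine Dr.next h hq1 hab ?_
    rw [moveT2 h, moveT h, moveT h]
    have h3 := hev a b
    have h4 := hev a c
    have h5 := hev b c
    omega
  have hxyD : Dr d p q ((x⁻¹ * y) • p) := by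
    unfold Dr
    rw [hq2, moveT h, hM1]
    omega
  have hyxD := hopp x hx y hy hxyD
  have hyx : d (y • p) (x • p) = M := by rw [h.comm, hM1]
  have hxa : ∀ a ∈ X, 1 ≤ d (x • p) (a • p) → Dr d p q ((a⁻¹ * x) • p) := by
    intro a ha h1
    refine hopp x hx a ha (hside x hx y hy a ha hxyD ?_)
    have := hle y hy a ha
    omega
  have hya : ∀ a ∈ X, 1 ≤ d (y • p) (a • p) → Dr d p q ((a⁻¹ * y) • p) := by
    intro a ha h1
    refine hopp y hy a ha (hside y hy x hx a ha hyxD ?_)
    have := hle x hx a ha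
    omega
  have hz : ∀ a ∈ X, ∃ z ∈ X, 1 ≤ d (z • p) (a • p) ∧ ∀ b ∈ X, 1 ≤ d (z • p) (b • p) →
      Dr d p q ((b⁻¹ * z) • p) := by
    intro a ha
    by_cases h1 : 1 ≤ d (x • p) (a • p)
    · exact ⟨x, hx, h1, hxa⟩
    · refine ⟨y, hy, ?_, hya⟩
      have h2 := h.tri (x • p) (a • p) (y • p)
      rw [h.comm (a • p) (y • p)] at h2
      omega
  have hlt : Mx q < M := by
    refine (Finset.sup_lt_iff (by show (0 : ℕ) < M; omega)).2 ?_
    rintro ⟨a, b⟩ hab
    obtain ⟨ha, hb⟩ := Finset.mem_product.1 hab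
    simp only at ha hb ⊢
    have hU := hle a ha b hb
    obtain ⟨z, hzX, hza, hzD⟩ := hz a ha
    have hzaD := hzD a ha hza
    have e1 : d (a • p) (a • q) = 1 := by rw [h.inv, hq1]
    have e2 : d (b • p) (b • q) = 1 := by rw [h.inv, hq1]
    by_cases h0 : d (a • p) (b • p) = 0
    · have hpb : a • p = b • p := h.zero _ _ h0
      have hzb : 1 ≤ d (z • p) (b • p) := by rw [← hpb]; exact hza
      have hzbD := hzD b hb hzb
      unfold Dr at hzaD hzbD
      rw [moveT3 h, moveT h] at hzaD hzbD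
      have f1 := h.four (a • q) (b • q) (a • p) (z • p)
      have c1 : d (a • q) (a • p) = d (a • p) (a • q) := h.comm _ _
      have c2 : d (b • q) (a • p) = d (b • p) (b • q) := by rw [hpb]; exact h.comm _ _
      rw [← hpb] at hzbD
      omega
    · have hUe := hev a b
      have habD : Dr d p q ((a⁻¹ * b) • p) := by
        by_cases h1 : d (z • p) (b • p) + 1 ≤ d (a • p) (z • p) + d (a • p) (b • p)
        · exact hside a ha z hzX b hb hzaD h1
        · have c1 : d (a • p) (z • p) = d (z • p) (a • p) := h.comm _ _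
          have hzbD := hzD b hb (by omega)
          refine hopp b hb a ha (hside b hb z hzX a ha hzbD ?_)
          have c2 : d (b • p) (z • p) = d (z • p) (b • p) := h.comm _ _
          have c3 : d (b • p) (a • p) = d (a • p) (b • p) := h.comm _ _
          omega
      have hbaD := hopp a ha b hb habD
      unfold Dr at habD hbaD
      rw [moveT3 h, moveT h] at habD hbaD
      have f1 := h.four (a • p) (b • p) (a • q) (b • q)
      have c1 : d (b • p) (a • q) = d (a • q) (b • p) := h.comm _ _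
      have c2 : d (a • p) (b • q) = d (b • q) (a • p) := h.comm _ _
      have c3 : d (b • p) (a • p) = d (a • p) (b • p) := h.comm _ _
      omega
  exact absurd (hp q) (not_le.2 hlt)

theorem few_tree {B : ℕ} (h : TreeMetric G d) [Nonempty V]
    (hB : ∀ p : V, Run7.h917.LW.Few B (MulAction.stabilizer G p)) : Run7.h917.LW.Few B G := by
  classical
  intro X hX
  by_contra hcon
  push Not at hcon
  have hne : X.Nonempty := Finset.card_pos.1 (by omega)
  obtain ⟨p, hp⟩ := fix h X hne hcon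
  obtain ⟨x0, hx0⟩ := hne
  have hmem : ∀ x ∈ X, x0⁻¹ * x ∈ MulAction.stabilizer G p := by
    intro x hx
    rw [MulAction.mem_stabilizer_iff, mul_smul, hp x hx x0 hx0, inv_smul_smul]
  let Y : Finset (MulAction.stabilizer G p) := X.attach.image fun x => ⟨x0⁻¹ * x.1, hmem x.1 x.2⟩
  have hY : B < Y.card := by
    have h1 : Y.card = X.attach.card := by
      refine Finset.card_image_of_injective _ ?_
      intro x y hxy
      have h2 := congrArg Subtype.val hxy
      exact Subtype.ext (mul_left_cancel h2)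
    rw [h1, Finset.card_attach]
    exact hX
  obtain ⟨a', ha', b', hb', hab⟩ := hB p Y hY
  obtain ⟨a, -, rfl⟩ := Finset.mem_image.1 ha'
  obtain ⟨b, -, rfl⟩ := Finset.mem_image.1 hb'
  refine hab ?_
  refine (Function.Injective.isOfFinOrder_iff (f := (MulAction.stabilizer G p).subtype)
    (MulAction.stabilizer G p).subtype_injective).1 ?_
  rw [Subgroup.coe_subtype]
  have e : (((⟨x0⁻¹ * a.1, hmem a.1 a.2⟩ : MulAction.stabilizer G p)⁻¹ *
      ⟨x0⁻¹ * b.1, hmem b.1 b.2⟩ : MulAction.stabilizer G p) : G) = a.1⁻¹ * b.1 := by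
    simp only [Subgroup.coe_mul, Subgroup.coe_inv]
    group
  rw [e]
  exact hcon a.1 a.2 b.1 b.2

end Pool.Agent.Run7.h917.HG
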